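import Pool.Agent.Helper495.KO.Space

set_option autoImplicit false

namespace Pool.Agent.Helper495.KO

open Filter Topology Set

/-- The block maps. -/
noncomputable def TT (k : ℕ) : (Fin (bs k) → ℝ) ≃ (Fin (bs k) → ℝ) := (exists_block k).choose

theorem TT_spec (k : ℕ) : (∃ C, LipschitzWith C (TT k)) ∧ (∃ C, LipschitzWith C (TT k).symm) ∧
    (∀ m, m < k → ∀ (x : Fin (bs k) → ℝ) (δ : ℝ), 0 ≤ δ → (Finset.univ.filter fun i => δ < |x i|).card ≤ rr k (m + 1) →
      ∀ i : Fin (bs k), rr k m ≤ i.val → |TT k x i| ≤ 45 ^ (m + 1) * δ) ∧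
    (∀ m, m < k → ∀ (y : Fin (bs k) → ℝ) (δ : ℝ), 0 ≤ δ → (∀ i : Fin (bs k), rr k (m + 1) ≤ i.val → |y i| ≤ δ) →
      (Finset.univ.filter fun i => 45 ^ (m + 1) * δ < |(TT k).symm y i|).card ≤ rr k m) :=
  (exists_block k).choose_spec

/-- Transport of functions along a family of block maps. -/
noncomputable def tr (S : (k : ℕ) → (Fin (bs k) → ℝ) → (Fin (bs k) → ℝ)) (F G : Filter NN)
    (g : FSp F → ℝ) : FSp G → ℝ := fun z => match z with
  | none => g (pinf F)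
  | some x => g (pinf F) + S x.1 (fun j => g (pt F ⟨x.1, j⟩) - g (pinf F)) x.2

theorem tr_inf (S : (k : ℕ) → (Fin (bs k) → ℝ) → (Fin (bs k) → ℝ)) (F G : Filter NN) (g : FSp F → ℝ) :
    tr S F G g (pinf G) = g (pinf F) := rfl

theorem tr_pt (S : (k : ℕ) → (Fin (bs k) → ℝ) → (Fin (bs k) → ℝ)) (F G : Filter NN) (g : FSp F → ℝ)
    (k : ℕ) (i : Fin (bs k)) :
    tr S F G g (pt G ⟨k, i⟩) = g (pinf F) + S k (fun j => g (pt F ⟨k, j⟩) - g (pinf F)) i := rfl

theorem tr_tr {S S' : (k : ℕ) → (Fin (bs k) → ℝ) → (Fin (bs k) → ℝ)} (h : ∀ k x, S' k (S k x) = x)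
    (F G : Filter NN) (g : FSp F → ℝ) : tr S' G F (tr S F G g) = g := by
  funext z
  rcases fcases z with rfl | ⟨⟨k, i⟩, rfl⟩
  · rfl
  · rw [tr_pt, tr_inf]
    have h1 : (fun j => tr S F G g (pt G ⟨k, j⟩) - g (pinf F)) =
        S k (fun j => g (pt F ⟨k, j⟩) - g (pinf F)) := by
      funext j
      rw [tr_pt, add_sub_cancel_left]
    rw [h1, h]
    ring

theorem tr_uc {S : (k : ℕ) → (Fin (bs k) → ℝ) → (Fin (bs k) → ℝ)} (hS : ∀ k, ∃ C, LipschitzWith C (S k))
    (F G : Filter NN) : UniformContinuous (tr S F G) := by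
  rw [uniformContinuous_pi]
  intro z
  rcases fcases z with rfl | ⟨⟨k, i⟩, rfl⟩
  · exact Pi.uniformContinuous_proj (fun _ : FSp F => ℝ) (pinf F)
  · obtain ⟨C, hC⟩ := hS k
    have h1 : UniformContinuous (fun g : FSp F → ℝ => fun j : Fin (bs k) => g (pt F ⟨k, j⟩) - g (pinf F)) := by
      rw [uniformContinuous_pi]
      intro j
      exact (Pi.uniformContinuous_proj (fun _ : FSp F => ℝ) (pt F ⟨k, j⟩)).sub
        (Pi.uniformContinuous_proj (fun _ : FSp F => ℝ) (pinf F))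
    have h2 := (Pi.uniformContinuous_proj (fun _ : Fin (bs k) => ℝ) i).comp (hC.uniformContinuous.comp h1)
    exact (Pi.uniformContinuous_proj (fun _ : FSp F => ℝ) (pinf F)).add h2

theorem cont_YX {g : FSp FY → ℝ} (hg : Continuous g) : Continuous (tr (fun k => TT k) FY FX g) := by
  rw [continuous_iff_mem] at hg ⊢
  intro ε hε m
  set δ : ℝ := ε / (2 * 45 ^ (m + 1)) with hδ
  have hpow : (0 : ℝ) < 45 ^ (m + 1) := by positivity
  have hδ0 : 0 < δ := by positivity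
  have hδ1 : 45 ^ (m + 1) * δ < ε := by
    rw [hδ]
    have : (45 : ℝ) ^ (m + 1) * (ε / (2 * 45 ^ (m + 1))) = ε / 2 := by field_simp
    rw [this]; linarith
  obtain ⟨k0, hk0⟩ := mem_FY.mp (hg δ hδ0) (m + 1)
  refine ((finite_lt_nat (max k0 (m + 1))).biUnion
    (t := fun k => range fun i : Fin (bs k) => (⟨k, i⟩ : NN)) fun k _ => finite_range _).subset ?_
  rintro ⟨k, i⟩ ⟨hi1, hi2⟩
  refine mem_biUnion (x := k) ?_ ⟨i, rfl⟩
  by_contra hk
  have hk' : max k0 (m + 1) ≤ k := not_lt.mp hk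
  apply hi2
  show |tr (fun k => TT k) FY FX g (pt FX ⟨k, i⟩) - g (pinf FY)| < ε
  rw [tr_pt, add_sub_cancel_left]
  have hi1' : rr k m ≤ i.val := by
    have : R k m ≤ i.val := hi1
    rwa [R_of (by omega)] at this
  refine lt_of_le_of_lt ((TT_spec k).2.2.1 m (by omega) _ δ hδ0.le ?_ i hi1') hδ1
  have h1 := hk0 k (by omega)
  rw [R_of (by omega)] at h1
  refine le_trans ?_ h1
  rw [← ncard_coe_finset]
  refine ncard_le_ncard ?_ (toFinite _)
  intro j hj
  rw [Finset.mem_coe, Finset.mem_filter] at hj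
  intro hj'
  have h2 : |g (pt FY ⟨k, j⟩) - g (pinf FY)| < δ := hj'
  linarith [hj.2]

theorem cont_XY {f : FSp FX → ℝ} (hf : Continuous f) : Continuous (tr (fun k => (TT k).symm) FX FY f) := by
  rw [continuous_iff_mem] at hf ⊢
  intro ε hε m
  set δ : ℝ := ε / (2 * 45 ^ (m + 1)) with hδ
  have hpow : (0 : ℝ) < 45 ^ (m + 1) := by positivity
  have hδ0 : 0 < δ := by positivity
  have hδ1 : 45 ^ (m + 1) * δ < ε := by
    rw [hδ]
    have : (45 : ℝ) ^ (m + 1) * (ε / (2 * 45 ^ (m + 1))) = ε / 2 := by field_simp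
    rw [this]; linarith
  have h1 := mem_FX.mp (hf δ hδ0) (m + 1)
  obtain ⟨b, hb⟩ := (h1.image (fun x : NN => x.1)).bddAbove
  refine ⟨max (b + 1) (m + 1), fun k hk => ?_⟩
  rw [R_of (by omega)]
  have h2 : ∀ i : Fin (bs k), rr k (m + 1) ≤ i.val → |f (pt FX ⟨k, i⟩) - f (pinf FX)| ≤ δ := by
    intro i hi
    by_contra hc
    have h3 : (⟨k, i⟩ : NN) ∈ Ks (m + 1) \ {x | |f (pt FX x) - f (pinf FX)| < δ} := by
      refine ⟨?_, fun h4 => hc (le_of_lt h4)⟩
      show R k (m + 1) ≤ i.val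
      rw [R_of (by omega)]; exact hi
    have h5 := hb (mem_image_of_mem (fun x : NN => x.1) h3)
    have h6 : k ≤ b := h5
    omega
  have h3 := (TT_spec k).2.2.2 m (by omega) (fun j => f (pt FX ⟨k, j⟩) - f (pinf FX)) δ hδ0.le h2
  refine le_trans ?_ h3
  rw [← ncard_coe_finset]
  refine ncard_le_ncard ?_ (toFinite _)
  intro j hj
  rw [Finset.mem_coe, Finset.mem_filter]
  refine ⟨Finset.mem_univ _, ?_⟩
  by_contra hc
  apply hj
  show |tr (fun k => (TT k).symm) FX FY f (pt FY ⟨k, j⟩) - f (pinf FX)| < ε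
  rw [tr_pt, add_sub_cancel_left]
  exact lt_of_le_of_lt (not_lt.mp hc) hδ1

/-- The uniform homeomorphism. -/
noncomputable def UE : UniformEquiv {f : FSp FX → ℝ // Continuous f} {g : FSp FY → ℝ // Continuous g} where
  toFun f := ⟨tr (fun k => (TT k).symm) FX FY f.1, cont_XY f.2⟩
  invFun g := ⟨tr (fun k => TT k) FY FX g.1, cont_YX g.2⟩
  left_inv f := Subtype.ext (tr_tr (fun k x => (TT k).apply_symm_apply x) FX FY f.1)
  right_inv g := Subtype.ext (tr_tr (fun k x => (TT k).symm_apply_apply x) FY FX g.1)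
  uniformContinuous_toFun :=
    ((tr_uc (fun k => (TT_spec k).2.1) FX FY).comp uniformContinuous_subtype_val).subtype_mk _
  uniformContinuous_invFun :=
    ((tr_uc (fun k => (TT_spec k).1) FY FX).comp uniformContinuous_subtype_val).subtype_mk _

theorem main :
    ¬ (∀ (X Y : Type) [TopologicalSpace X] [TopologicalSpace Y] [T35Space X] [T35Space Y],
      Nonempty (UniformEquiv {f : X → ℝ // Continuous f} {g : Y → ℝ // Continuous g}) →
      ((∃ K : ℕ → Set X, (∀ n, IsCompact (K n)) ∧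
          ∀ C : Set X, IsCompact C → ∃ n, C ⊆ K n) ∧
        (∀ A : Set X, (∀ C : Set X, IsCompact C → IsClosed (A ∩ C)) → IsClosed A)) →
      ((∃ K : ℕ → Set Y, (∀ n, IsCompact (K n)) ∧
          ∀ C : Set Y, IsCompact C → ∃ n, C ⊆ K n) ∧
        (∀ A : Set Y, (∀ C : Set Y, IsCompact C → IsClosed (A ∩ C)) → IsClosed A))) := by
  intro h
  haveI := t35 FX_le
  haveI := t35 FY_le
  exact not_kY (h (FSp FX) (FSp FY) ⟨UE⟩ ⟨⟨Kc, isCompact_Kc, hemi⟩, kX⟩).2

end Pool.Agent.Helper495.KO
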