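import Pool.Agent.Helper495.KO.CodeEx

set_option autoImplicit false

namespace Pool.Agent.Helper495.KO

open Filter Topology Set

/-- A set with one extra point whose neighbourhoods are given by a filter. -/
def FSp {N : Type} (_F : Filter N) : Type := Option N

variable {N : Type} {F : Filter N}

/-- The extra point. -/
def pinf (F : Filter N) : FSp F := (none : Option N)

/-- Isolated points. -/
def pt (F : Filter N) (x : N) : FSp F := (some x : Option N)

theorem pt_inj {x y : N} (h : pt F x = pt F y) : x = y := Option.some_injective _ h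
theorem pt_ne (x : N) : pt F x ≠ pinf F := Option.some_ne_none x
theorem fcases (z : FSp F) : z = pinf F ∨ ∃ x, z = pt F x := by
  rcases z with _ | x
  · exact Or.inl rfl
  · exact Or.inr ⟨x, rfl⟩

instance : TopologicalSpace (FSp F) where
  IsOpen U := pinf F ∈ U → {x | pt F x ∈ U} ∈ F
  isOpen_univ := fun _ => univ_mem
  isOpen_inter U V hU hV := fun h => inter_mem (hU h.1) (hV h.2)
  isOpen_sUnion S hS := by
    rintro ⟨U, hU, h⟩
    exact mem_of_superset (hS U hU h) fun x hx => ⟨U, hU, hx⟩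

theorem isOpen_def {U : Set (FSp F)} : IsOpen U ↔ (pinf F ∈ U → {x | pt F x ∈ U} ∈ F) := Iff.rfl

theorem isOpen_of_notMem {U : Set (FSp F)} (h : pinf F ∉ U) : IsOpen U := fun h' => absurd h' h

theorem isClosed_of_mem {U : Set (FSp F)} (h : pinf F ∈ U) : IsClosed U :=
  ⟨isOpen_of_notMem fun h' => h' h⟩

/-- Clopen sets form a base. -/
theorem t35 (hF : F ≤ cofinite) : T35Space (FSp F) := by
  have hsing : ∀ x, IsClosed ({pt F x} : Set (FSp F)) := fun x => ⟨fun _ => by
    have : ({x}ᶜ : Set N) ∈ F := hF (finite_singleton x).compl_mem_cofinite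
    refine mem_of_superset this fun y hy hyx => hy (pt_inj hyx)⟩
  haveI : T1Space (FSp F) := ⟨fun z => by
    rcases fcases z with rfl | ⟨x, rfl⟩
    · exact isClosed_of_mem rfl
    · exact hsing x⟩
  haveI : CompletelyRegularSpace (FSp F) := ⟨by
    intro z K hK hz
    obtain ⟨V, hV, hzV, hVK⟩ : ∃ V : Set (FSp F), IsClopen V ∧ z ∈ V ∧ V ⊆ Kᶜ := by
      rcases fcases z with rfl | ⟨x, rfl⟩
      · refine ⟨Kᶜ, ⟨isClosed_of_mem hz, hK.isOpen_compl⟩, hz, subset_rfl⟩
      · refine ⟨{pt F x}, ⟨hsing x, isOpen_of_notMem ?_⟩, rfl, ?_⟩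
        · intro h; exact pt_ne x h.symm
        · rintro _ rfl; exact hz
    refine ⟨Vᶜ.indicator 1, ?_, by simpa, fun x hx => indicator_of_mem ?_ _⟩
    · exact hV.compl.continuous_indicator continuous_const
    · exact (mem_compl_iff V x).mpr fun hs => hVK hs hx⟩
  exact {}


theorem continuous_iff_mem {f : FSp F → ℝ} :
    Continuous f ↔ ∀ ε : ℝ, 0 < ε → {x | |f (pt F x) - f (pinf F)| < ε} ∈ F := by
  constructor
  · intro hf ε hε
    have h1 : IsOpen (f ⁻¹' (Metric.ball (f (pinf F)) ε)) := Metric.isOpen_ball.preimage hf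
    have h2 := isOpen_def.mp h1 (Metric.mem_ball_self hε)
    refine mem_of_superset h2 fun x hx => ?_
    have h3 : f (pt F x) ∈ Metric.ball (f (pinf F)) ε := hx
    rw [Metric.mem_ball, Real.dist_eq] at h3
    exact h3
  · intro h
    rw [continuous_def]
    intro U hU
    rw [isOpen_def]
    intro hp
    obtain ⟨ε, hε, hb⟩ := Metric.isOpen_iff.mp hU _ hp
    refine mem_of_superset (h ε hε) fun x hx => ?_
    apply hb
    rw [Metric.mem_ball, Real.dist_eq]
    exact hx

/-- The index set of isolated points. -/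
def NN : Type := Σ k : ℕ, Fin (bs k)

/-- Thresholds. -/
def R (k m : ℕ) : ℕ := if m ≤ k then rr k m else 0

theorem R_of {k m : ℕ} (h : m ≤ k) : R k m = rr k m := if_pos h
theorem R_of_not {k m : ℕ} (h : k < m) : R k m = 0 := if_neg (by omega)

theorem R_two {k m : ℕ} (h : m + 1 ≤ k) : 2 * R k (m + 1) ≤ R k m := by
  rw [R_of h, R_of (by omega)]
  have := five_rr (K := k) (m := m) (by omega)
  omega

theorem R_anti (k m : ℕ) : R k (m + 1) ≤ R k m := by
  by_cases h : m + 1 ≤ k
  · have := R_two h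
    omega
  · rw [R_of_not (by omega)]; exact Nat.zero_le _

theorem R_anti' (k : ℕ) {m n : ℕ} (h : m ≤ n) : R k n ≤ R k m :=
  antitone_nat_of_succ_le (f := R k) (fun m => R_anti k m) h

/-- The isolated points of the compact sets. -/
def Ks (m : ℕ) : Set NN := {x | R x.1 m ≤ x.2.val}

theorem Ks_mono {m n : ℕ} (h : m ≤ n) : Ks m ⊆ Ks n := fun x hx => (R_anti' x.1 h).trans hx

theorem mem_Ks_large (x : NN) {m : ℕ} (h : x.1 < m) : x ∈ Ks m := by
  show R x.1 m ≤ x.2.val
  rw [R_of_not h]; exact Nat.zero_le _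

/-- The filter of the first space. -/
def FX : Filter NN where
  sets := {U | ∀ m, (Ks m \ U).Finite}
  univ_sets := fun m => by simp
  sets_of_superset := fun hU hUV m => (hU m).subset (diff_subset_diff_right hUV)
  inter_sets := fun hU hV m => by
    rw [diff_inter]
    exact (hU m).union (hV m)

theorem mem_FX {U : Set NN} : U ∈ FX ↔ ∀ m, (Ks m \ U).Finite := Iff.rfl

/-- The filter of the second space. -/
def FY : Filter NN where
  sets := {U | ∀ m, ∃ k0, ∀ k, k0 ≤ k → ({i : Fin (bs k) | (⟨k, i⟩ : NN) ∉ U}).ncard ≤ R k m}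
  univ_sets := fun m => ⟨0, fun k _ => by
    have h : {i : Fin (bs k) | (⟨k, i⟩ : NN) ∉ (univ : Set NN)} = ∅ := by
      rw [eq_empty_iff_forall_notMem]; intro i hi; exact hi (mem_univ _)
    rw [h, ncard_empty]; exact Nat.zero_le _⟩
  sets_of_superset := fun {U V} hU hUV m => by
    obtain ⟨k0, hk0⟩ := hU m
    refine ⟨k0, fun k hk => (ncard_le_ncard ?_ (toFinite _)).trans (hk0 k hk)⟩
    intro i hi hi'
    exact hi (hUV hi')
  inter_sets := fun {U V} hU hV m => by
    obtain ⟨k1, hk1⟩ := hU (m + 1)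
    obtain ⟨k2, hk2⟩ := hV (m + 1)
    refine ⟨max (max k1 k2) (m + 1), fun k hk => ?_⟩
    have h1 := hk1 k (by omega)
    have h2 := hk2 k (by omega)
    have h3 := R_two (k := k) (m := m) (by omega)
    have h4 : {i : Fin (bs k) | (⟨k, i⟩ : NN) ∉ U ∩ V} ⊆
        {i : Fin (bs k) | (⟨k, i⟩ : NN) ∉ U} ∪ {i : Fin (bs k) | (⟨k, i⟩ : NN) ∉ V} := by
      intro i hi
      by_contra hc
      have hc1 : ¬ ((⟨k, i⟩ : NN) ∉ U ∨ (⟨k, i⟩ : NN) ∉ V) := hc
      push Not at hc1
      exact hi hc1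
    have h5 := ncard_le_ncard h4 (toFinite _)
    have h6 := ncard_union_le {i : Fin (bs k) | (⟨k, i⟩ : NN) ∉ U} {i : Fin (bs k) | (⟨k, i⟩ : NN) ∉ V}
    omega

theorem mem_FY {U : Set NN} : U ∈ FY ↔ ∀ m, ∃ k0, ∀ k, k0 ≤ k →
    ({i : Fin (bs k) | (⟨k, i⟩ : NN) ∉ U}).ncard ≤ R k m := Iff.rfl

theorem FX_le : FX ≤ cofinite := by
  intro U hU m
  rw [mem_cofinite] at hU
  exact hU.subset fun x hx => hx.2

theorem FY_le : FY ≤ cofinite := by
  intro U hU m
  rw [mem_cofinite] at hU
  obtain ⟨b, hb⟩ := (hU.image (fun x : NN => x.1)).bddAbove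
  refine ⟨b + 1, fun k hk => ?_⟩
  have : {i : Fin (bs k) | (⟨k, i⟩ : NN) ∉ U} = ∅ := by
    rw [eq_empty_iff_forall_notMem]
    intro i hi
    have := hb (mem_image_of_mem (fun x : NN => x.1) hi)
    simp only at this
    omega
  rw [this, ncard_empty]; exact Nat.zero_le _

/-- A compact set. -/
def Kc (m : ℕ) : Set (FSp FX) := insert (pinf FX) (range fun x : Ks m => pt FX x.1)

theorem isCompact_Kc (m : ℕ) : IsCompact (Kc m) := by
  apply Tendsto.isCompact_insert_range_of_cofinite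
  intro U hU
  obtain ⟨V, hVU, hV, hp⟩ := mem_nhds_iff.mp hU
  rw [Filter.mem_map, mem_cofinite]
  have h1 := mem_FX.mp (isOpen_def.mp hV hp) m
  have h2 : (Subtype.val '' ((fun x : Ks m => pt FX x.1) ⁻¹' U)ᶜ : Set NN).Finite := by
    refine h1.subset ?_
    rintro _ ⟨⟨x, hx⟩, hx', rfl⟩
    exact ⟨hx, fun h => hx' (hVU h)⟩
  exact h2.of_finite_image Subtype.val_injective.injOn

theorem mem_Kc {m : ℕ} {x : NN} : pt FX x ∈ Kc m ↔ x ∈ Ks m := by
  constructor
  · rintro (h | ⟨y, hy⟩)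
    · exact absurd h (pt_ne x)
    · rw [← pt_inj hy]; exact y.2
  · intro h
    exact Or.inr ⟨⟨x, h⟩, rfl⟩

/-- A compact set has only finitely many points in a set whose complement is a neighbourhood. -/
theorem finite_of_compact {F : Filter NN} {C : Set (FSp F)} (hC : IsCompact C) {D : Set NN} (hD : Dᶜ ∈ F)
    (hDC : ∀ x ∈ D, pt F x ∈ C) : D.Finite := by
  let U : Option D → Set (FSp F) := fun o => match o with
    | none => {z | ∀ x ∈ D, z ≠ pt F x}
    | some x => {pt F x.1}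
  have hU : ∀ o, IsOpen (U o) := by
    rintro (_ | x)
    · rw [isOpen_def]
      intro _
      refine mem_of_superset hD fun y hy x hx h => hy ?_
      rw [pt_inj h]; exact hx
    · exact isOpen_of_notMem fun h => pt_ne x.1 h.symm
  have hcov : C ⊆ ⋃ o, U o := by
    intro z hz
    by_cases h : ∃ x ∈ D, z = pt F x
    · obtain ⟨x, hx, rfl⟩ := h
      exact mem_iUnion.mpr ⟨some ⟨x, hx⟩, rfl⟩
    · push Not at h
      exact mem_iUnion.mpr ⟨none, h⟩
  obtain ⟨t, ht⟩ := hC.elim_finite_subcover U hU hcov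
  have h1 : (some '' (univ : Set D) : Set (Option D)) ⊆ (t : Set (Option D)) := by
    rintro _ ⟨x, _, rfl⟩
    obtain ⟨o, ho, hx⟩ := mem_iUnion₂.mp (ht (hDC x.1 x.2))
    rcases o with _ | y
    · exact absurd rfl (hx x.1 x.2)
    · have : x = y := Subtype.ext (pt_inj hx)
      rw [this]; exact ho
  have h2 : (univ : Set D).Finite := (t.finite_toSet.subset h1).of_finite_image (Option.some_injective _).injOn
  exact finite_coe_iff.mp (finite_univ_iff.mp h2)

theorem hemi (C : Set (FSp FX)) (hC : IsCompact C) : ∃ n, C ⊆ Kc n := by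
  by_contra hcon
  push Not at hcon
  have h1 : ∀ n, ∃ x : NN, pt FX x ∈ C ∧ x ∉ Ks n := by
    intro n
    obtain ⟨z, hz, hz'⟩ := not_subset.mp (hcon n)
    rcases fcases z with rfl | ⟨x, rfl⟩
    · exact absurd (mem_insert _ _) hz'
    · exact ⟨x, hz, fun h => hz' (mem_Kc.mpr h)⟩
  choose x hx1 hx2 using h1
  have hD : (range x)ᶜ ∈ FX := by
    intro m
    refine ((finite_lt_nat m).image x).subset ?_
    rintro y ⟨hy1, hy2⟩
    rw [mem_compl_iff, not_not] at hy2
    obtain ⟨n, rfl⟩ := hy2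
    refine ⟨n, ?_, rfl⟩
    by_contra hc
    have hmn : m ≤ n := not_lt.mp hc
    exact hx2 n (Ks_mono hmn hy1)
  have h2 : (range x).Finite := finite_of_compact hC hD (by rintro _ ⟨n, rfl⟩; exact hx1 n)
  obtain ⟨b, hb⟩ := (h2.image (fun x : NN => x.1)).bddAbove
  apply hx2 (b + 1)
  apply mem_Ks_large
  have := hb (mem_image_of_mem (fun x : NN => x.1) (mem_range_self (f := x) (b + 1)))
  exact Nat.lt_succ_of_le this

theorem kX (A : Set (FSp FX)) (hA : ∀ C : Set (FSp FX), IsCompact C → IsClosed (A ∩ C)) : IsClosed A := by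
  by_cases h : pinf FX ∈ A
  · exact isClosed_of_mem h
  · refine ⟨fun _ m => ?_⟩
    have h1 := (hA _ (isCompact_Kc m)).isOpen_compl
    have h2 := mem_FX.mp (isOpen_def.mp h1 fun h' => h h'.1) m
    refine h2.subset ?_
    rintro x ⟨hx1, hx2⟩
    refine ⟨hx1, fun hx3 => hx3 ⟨?_, mem_Kc.mpr hx1⟩⟩
    by_contra hc
    exact hx2 hc

theorem compact_finite (C : Set (FSp FY)) (hC : IsCompact C) : C.Finite := by
  have h0 : {x : NN | pt FY x ∈ C}.Finite := by
    by_contra hinf
    let S : Set NN := {x : NN | pt FY x ∈ C}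
    -- choose one point in each block
    have hch : ∀ k : ℕ, ∃ y : Fin (bs k), (∃ i : Fin (bs k), (⟨k, i⟩ : NN) ∈ S) → (⟨k, y⟩ : NN) ∈ S := by
      intro k
      by_cases h : ∃ i : Fin (bs k), (⟨k, i⟩ : NN) ∈ S
      · obtain ⟨i, hi⟩ := h
        exact ⟨i, fun _ => hi⟩
      · exact ⟨⟨0, Nat.two_pow_pos _⟩, fun h' => absurd h' h⟩
    choose y hy using hch
    let P : Set ℕ := {k | ∃ i : Fin (bs k), (⟨k, i⟩ : NN) ∈ S}
    let D : Set NN := (fun k => (⟨k, y k⟩ : NN)) '' P
    have hD : Dᶜ ∈ FY := by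
      intro m
      refine ⟨m, fun k hk => ?_⟩
      have h1 : {i : Fin (bs k) | (⟨k, i⟩ : NN) ∉ Dᶜ} ⊆ {y k} := by
        intro i hi
        have hi' : (⟨k, i⟩ : NN) ∈ D := by
          by_contra hc
          exact hi hc
        obtain ⟨j, _, hj⟩ := hi'
        have hjk : j = k := congrArg Sigma.fst hj
        subst hjk
        have := eq_of_heq (Sigma.mk.inj hj).2
        exact this.symm
      refine (ncard_le_ncard h1 (toFinite _)).trans ?_
      rw [ncard_singleton, R_of hk]
      exact rr_pos k m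
    have hDC : ∀ x ∈ D, pt FY x ∈ C := by
      rintro _ ⟨k, hk, rfl⟩
      exact hy k hk
    have h1 := finite_of_compact hC hD hDC
    have h2 : P.Finite := by
      refine h1.of_finite_image (f := fun k => (⟨k, y k⟩ : NN)) ?_
      intro k _ l _ hkl
      exact congrArg Sigma.fst hkl
    apply hinf
    refine (h2.biUnion (t := fun k => range fun i : Fin (bs k) => (⟨k, i⟩ : NN)) fun k _ => finite_range _).subset ?_
    rintro ⟨k, i⟩ hx
    exact mem_biUnion (show k ∈ P from ⟨i, hx⟩) ⟨i, rfl⟩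
  refine ((h0.image (pt FY)).union (finite_singleton (pinf FY))).subset ?_
  intro z hz
  rcases fcases z with rfl | ⟨x, rfl⟩
  · exact Or.inr rfl
  · exact Or.inl ⟨x, hz, rfl⟩

theorem not_kY : ¬ ∀ A : Set (FSp FY), (∀ C : Set (FSp FY), IsCompact C → IsClosed (A ∩ C)) → IsClosed A := by
  intro h
  haveI : T35Space (FSp FY) := t35 FY_le
  have h1 : IsClosed ({pinf FY}ᶜ : Set (FSp FY)) :=
    h _ fun C hC => ((compact_finite C hC).subset inter_subset_right).isClosed
  have h2 : IsOpen ({pinf FY} : Set (FSp FY)) := by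
    have := h1.isOpen_compl
    rwa [compl_compl] at this
  obtain ⟨k0, hk0⟩ := mem_FY.mp (isOpen_def.mp h2 rfl) 0
  have h3 := hk0 k0 le_rfl
  have h4 : {i : Fin (bs k0) | (⟨k0, i⟩ : NN) ∉ {x | pt FY x ∈ ({pinf FY} : Set (FSp FY))}} = univ := by
    rw [eq_univ_iff_forall]
    intro i hi
    exact pt_ne _ hi
  rw [h4, ncard_univ, Nat.card_eq_fintype_card, Fintype.card_fin, R_of (Nat.zero_le _)] at h3
  have := rr_lt_bs k0 0
  omega

end Pool.Agent.Helper495.KO
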