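import Mathlib

set_option autoImplicit false

namespace Pool.Agent.Helper495.KO

open Finset

variable {ι : Type} [Fintype ι] [DecidableEq ι]

/-- Support of a vector. -/
noncomputable def nz (v : ι → ℝ) : Finset ι := by
  classical exact univ.filter fun i => v i ≠ 0

theorem mem_nz {v : ι → ℝ} {i : ι} : i ∈ nz v ↔ v i ≠ 0 := by
  classical
  simp [nz]

/-- At most `r` nonzero coordinates. -/
def Sp (r : ℕ) (v : ι → ℝ) : Prop := (nz v).card ≤ r

theorem sp_of_subset {r : ℕ} {v : ι → ℝ} {S : Finset ι} (h : ∀ i, v i ≠ 0 → i ∈ S) (hS : S.card ≤ r) :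
    Sp r v :=
  (card_le_card fun i hi => h i (mem_nz.mp hi)).trans hS

theorem Sp.mono {r s : ℕ} {v : ι → ℝ} (h : Sp r v) (hrs : r ≤ s) : Sp s v := le_trans h hrs

theorem sp_zero (r : ℕ) : Sp r (0 : ι → ℝ) :=
  sp_of_subset (S := ∅) (fun i hi => absurd rfl hi) (by simp)

theorem Sp.add {r s : ℕ} {v w : ι → ℝ} (hv : Sp r v) (hw : Sp s w) : Sp (r + s) (v + w) := by
  refine sp_of_subset (S := nz v ∪ nz w) ?_ ((card_union_le _ _).trans (add_le_add hv hw))
  intro i hi
  rw [mem_union, mem_nz, mem_nz]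
  by_contra hc
  push Not at hc
  exact hi (by rw [Pi.add_apply, hc.1, hc.2, add_zero])

theorem Sp.neg {r : ℕ} {v : ι → ℝ} (hv : Sp r v) : Sp r (-v) :=
  sp_of_subset (S := nz v) (fun i hi => mem_nz.mpr fun h => hi (by rw [Pi.neg_apply, h, neg_zero])) hv

/-- Soft thresholding: a Lipschitz retraction onto the sparse vectors. -/
theorem exists_theta (r : ℕ) : ∃ θ : (ι → ℝ) → (ι → ℝ), LipschitzWith 4 θ ∧ (∀ v, Sp r (θ v)) ∧
    (∀ v, Sp r v → θ v = v) := by
  classical
  let S : Set (ι → ℝ) := {w | Sp r w}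
  have hne : S.Nonempty := ⟨0, sp_zero r⟩
  let t : (ι → ℝ) → ℝ := fun v => Metric.infDist v S
  have ht0 : ∀ v, 0 ≤ t v := fun v => Metric.infDist_nonneg
  have ht1 : ∀ v w, |t v - t w| ≤ dist v w := fun v w => by
    have := (Metric.lipschitz_infDist_pt S).dist_le_mul v w
    rw [NNReal.coe_one, one_mul, Real.dist_eq] at this
    exact this
  have habs : ∀ a b : ℝ, |max a 0 - max b 0| ≤ |a - b| := fun a b => by
    have := abs_max_sub_max_le_abs a b 0
    simpa using this
  have habs' : ∀ a b : ℝ, |min a 0 - min b 0| ≤ |a - b| := fun a b => by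
    have := abs_min_sub_min_le_max a 0 b 0
    simpa using this
  refine ⟨fun v i => max (v i - t v) 0 + min (v i + t v) 0, ?_, ?_, ?_⟩
  · apply LipschitzWith.of_dist_le_mul
    intro v w
    rw [dist_pi_le_iff (by positivity)]
    intro i
    have h1 : |v i - w i| ≤ dist v w := by rw [← Real.dist_eq]; exact dist_le_pi_dist v w i
    have h2 := ht1 v w
    have h3 := habs (v i - t v) (w i - t w)
    have h4 := habs' (v i + t v) (w i + t w)
    have h5 : |(v i - t v) - (w i - t w)| ≤ 2 * dist v w := by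
      rw [abs_le] at h1 h2 ⊢
      constructor <;> linarith [h1.1, h1.2, h2.1, h2.2]
    have h6 : |(v i + t v) - (w i + t w)| ≤ 2 * dist v w := by
      rw [abs_le] at h1 h2 ⊢
      constructor <;> linarith [h1.1, h1.2, h2.1, h2.2]
    rw [Real.dist_eq]
    have h7 := abs_le.mp (h3.trans h5)
    have h8 := abs_le.mp (h4.trans h6)
    have h9 : ((4 : NNReal) : ℝ) = 4 := by norm_num
    rw [h9, abs_le]
    constructor <;> linarith [h7.1, h7.2, h8.1, h8.2]
  · intro v
    let B : Finset ι := univ.filter fun i => t v < |v i|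
    have hB : B.card ≤ r := by
      by_contra hc
      push Not at hc
      have hBne : B.Nonempty := card_pos.mp (by omega)
      obtain ⟨i0, hi0, hmin⟩ := exists_min_image B (fun i => |v i|) hBne
      have h1 : t v < |v i0| := (mem_filter.mp hi0).2
      have h2 : |v i0| ≤ t v := by
        refine (Metric.le_infDist hne).mpr ?_
        intro w hw
        obtain ⟨i, hi, hi'⟩ : ∃ i ∈ B, i ∉ nz w := by
          by_contra hcc
          push Not at hcc
          have := card_le_card (fun i hi => hcc i hi : B ⊆ nz w)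
          have hw' : (nz w).card ≤ r := hw
          omega
        have h3 : w i = 0 := by
          by_contra h
          exact hi' (mem_nz.mpr h)
        calc |v i0| ≤ |v i| := hmin i hi
          _ = dist (v i) (w i) := by rw [h3, Real.dist_eq, sub_zero]
          _ ≤ dist v w := dist_le_pi_dist v w i
      linarith
    refine sp_of_subset (S := B) ?_ hB
    intro i hi
    rw [mem_filter]
    refine ⟨mem_univ _, ?_⟩
    by_contra hc
    push Not at hc
    rw [abs_le] at hc
    apply hi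
    show max (v i - t v) 0 + min (v i + t v) 0 = 0
    rw [max_eq_right (by linarith [hc.2]), min_eq_right (by linarith [hc.1]), add_zero]
  · intro v hv
    have h0 : t v = 0 := Metric.infDist_zero_of_mem hv
    funext i
    show max (v i - t v) 0 + min (v i + t v) 0 = v i
    rw [h0, sub_zero, add_zero, max_add_min, add_zero]

/-- A system of subsets with small overlaps. -/
structure Code (A : Finset ι) (ρ : ℕ) where
  N : ι → Finset ι
  sub : ∀ i, N i ⊆ A
  q : ℕ
  e : ℕ
  card : ∀ i, q ≤ (N i).card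
  inter : ∀ i j, i ≠ j → (N i ∩ N j).card ≤ e
  big : 2 * ρ + 2 * ρ * e < q

/-- Restriction to a set of coordinates. -/
noncomputable def res (P : ι → Prop) (h : ι → ℝ) : ι → ℝ := by
  classical exact fun i => if P i then h i else 0

theorem res_of {P : ι → Prop} {h : ι → ℝ} {i : ι} (hi : P i) : res P h i = h i := by
  simp [res, hi]

theorem res_of_not {P : ι → Prop} {h : ι → ℝ} {i : ι} (hi : ¬ P i) : res P h i = 0 := by
  simp [res, hi]

theorem res_lip (P : ι → Prop) : LipschitzWith 1 (res (ι := ι) P) := by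
  apply LipschitzWith.of_dist_le_mul
  intro v w
  rw [NNReal.coe_one, one_mul, dist_pi_le_iff dist_nonneg]
  intro i
  by_cases hi : P i
  · rw [res_of hi, res_of hi]; exact dist_le_pi_dist v w i
  · rw [res_of_not hi, res_of_not hi, dist_self]; exact dist_nonneg

theorem res_sp {P : ι → Prop} {r : ℕ} {h : ι → ℝ} (hh : Sp r h) : Sp r (res P h) := by
  refine sp_of_subset (S := nz h) ?_ hh
  intro i hi
  rw [mem_nz]
  intro h0
  apply hi
  by_cases hP : P i
  · rw [res_of hP, h0]
  · exact res_of_not hP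

section EE

variable {A : Finset ι} {ρ : ℕ} (c : Code A ρ)

/-- Columns outside `A` through a row. -/
def Code.M (j : ι) : Finset ι := univ.filter fun i => i ∉ A ∧ j ∈ c.N i

/-- Superposition. -/
noncomputable def Code.E (v : ι → ℝ) : ι → ℝ := fun j =>
  (((c.M j).sup fun i => (v i).toNNReal : NNReal) : ℝ) - (((c.M j).sup fun i => (-v i).toNNReal : NNReal) : ℝ)

theorem sup_lip (s : Finset ι) (f g : ι → NNReal) (d : NNReal) (h : ∀ i, f i ≤ g i + d) :
    s.sup f ≤ s.sup g + d :=
  Finset.sup_le fun i hi => (h i).trans (add_le_add (Finset.le_sup (f := g) hi) le_rfl)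

theorem toNNReal_lip (a b : ℝ) (d : NNReal) (h : |a - b| ≤ d) : a.toNNReal ≤ b.toNNReal + d := by
  rw [← NNReal.coe_le_coe, NNReal.coe_add, Real.coe_toNNReal', Real.coe_toNNReal']
  have := (abs_le.mp h).2
  have h0 : (0 : ℝ) ≤ d := d.2
  rcases le_total a 0 with ha | ha
  · rw [max_eq_right ha]; positivity
  · rw [max_eq_left ha]
    have := le_max_left b 0
    linarith

theorem E_lip : LipschitzWith 2 c.E := by
  apply LipschitzWith.of_dist_le_mul
  intro v w
  rw [dist_pi_le_iff (by positivity)]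
  intro j
  have hd : ∀ i, |v i - w i| ≤ (nndist v w : ℝ) := fun i => by
    rw [← Real.dist_eq]; exact dist_le_pi_dist v w i
  have h1 := sup_lip (c.M j) (fun i => (v i).toNNReal) (fun i => (w i).toNNReal) (nndist v w)
    fun i => toNNReal_lip _ _ _ (hd i)
  have h2 := sup_lip (c.M j) (fun i => (w i).toNNReal) (fun i => (v i).toNNReal) (nndist v w)
    fun i => toNNReal_lip _ _ _ (by rw [abs_sub_comm]; exact hd i)
  have h3 := sup_lip (c.M j) (fun i => (-v i).toNNReal) (fun i => (-w i).toNNReal) (nndist v w)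
    fun i => toNNReal_lip _ _ _ (by rw [neg_sub_neg, abs_sub_comm]; exact hd i)
  have h4 := sup_lip (c.M j) (fun i => (-w i).toNNReal) (fun i => (-v i).toNNReal) (nndist v w)
    fun i => toNNReal_lip _ _ _ (by rw [neg_sub_neg]; exact hd i)
  rw [← NNReal.coe_le_coe, NNReal.coe_add] at h1 h2 h3 h4
  have h5 : (nndist v w : ℝ) = dist v w := rfl
  rw [h5] at h1 h2 h3 h4
  rw [Real.dist_eq]
  have h9 : ((2 : NNReal) : ℝ) = 2 := by norm_num
  rw [h9, abs_le]
  unfold Code.E
  constructor <;> linarith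

theorem E_off {v : ι → ℝ} {j : ι} (hj : j ∉ A) : c.E v j = 0 := by
  have h : c.M j = ∅ := by
    rw [Finset.eq_empty_iff_forall_notMem]
    intro i hi
    exact hj (c.sub i (mem_filter.mp hi).2.2)
  unfold Code.E
  rw [h, Finset.sup_empty, Finset.sup_empty, sub_self]

theorem E_zero : c.E 0 = 0 := by
  funext j
  unfold Code.E
  simp

/-- If only `i` among the columns through `j` can be nonzero then the row value is `v i`. -/
theorem E_single {v : ι → ℝ} {i j : ι} (hi : i ∉ A) (hj : j ∈ c.N i)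
    (h0 : ∀ k, k ∉ A → j ∈ c.N k → k ≠ i → v k = 0) : c.E v j = v i := by
  have hiM : i ∈ c.M j := mem_filter.mpr ⟨mem_univ _, hi, hj⟩
  have key : ∀ f : ι → NNReal, (∀ k ∈ c.M j, k ≠ i → f k = 0) → (c.M j).sup f = f i := by
    intro f hf
    apply le_antisymm
    · apply Finset.sup_le
      intro k hk
      by_cases hki : k = i
      · rw [hki]
      · rw [hf k hk hki]; exact zero_le
    · exact Finset.le_sup (f := f) hiM
  unfold Code.E
  rw [key _ ?_, key _ ?_]
  · rw [Real.coe_toNNReal', Real.coe_toNNReal']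
    rcases le_total (v i) 0 with h | h
    · rw [max_eq_right h, max_eq_left (by linarith)]; ring
    · rw [max_eq_left h, max_eq_right (by linarith)]; ring
  · intro k hk hki
    have := (mem_filter.mp hk).2
    show (-v k).toNNReal = 0
    rw [h0 k this.1 this.2 hki]; simp
  · intro k hk hki
    have := (mem_filter.mp hk).2
    show (v k).toNNReal = 0
    rw [h0 k this.1 this.2 hki]; simp

/-- Stable recovery. -/
theorem recover {u v u' v' : ι → ℝ} (hu : Sp ρ u) (hv : Sp ρ v) (hu' : Sp ρ u') (hv' : Sp ρ v')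
    (hA : ∀ i ∈ A, v i = 0) (hA' : ∀ i ∈ A, v' i = 0) :
    dist v v' ≤ dist (u + c.E v) (u' + c.E v') := by
  rw [dist_pi_le_iff dist_nonneg]
  intro i
  by_cases hi : i ∈ A
  · rw [hA i hi, hA' i hi, dist_self]; exact dist_nonneg
  -- bad rows
  let S : Finset ι := (nz v ∪ nz v').erase i
  let bad : Finset ι := (nz u ∪ nz u') ∪ S.biUnion fun k => c.N i ∩ c.N k
  have hbad : bad.card ≤ 2 * ρ + 2 * ρ * c.e := by
    refine (card_union_le _ _).trans (add_le_add ?_ ?_)
    · refine (card_union_le _ _).trans ?_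
      have h1 : (nz u).card ≤ ρ := hu
      have h2 : (nz u').card ≤ ρ := hu'
      omega
    · refine (card_biUnion_le_card_mul S _ c.e ?_).trans ?_
      · intro k hk
        exact c.inter i k (ne_of_mem_erase hk).symm
      · apply Nat.mul_le_mul_right
        refine (card_erase_le).trans ((card_union_le _ _).trans ?_)
        have h1 : (nz v).card ≤ ρ := hv
        have h2 : (nz v').card ≤ ρ := hv'
        omega
  obtain ⟨j, hj, hjb⟩ : ∃ j ∈ c.N i, j ∉ bad := by
    by_contra hc
    push Not at hc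
    have h1 := card_le_card (fun j hj => hc j hj : c.N i ⊆ bad)
    have h2 := c.card i
    have h3 := c.big
    omega
  have hju : u j = 0 := by
    by_contra h
    exact hjb (mem_union_left _ (mem_union_left _ (mem_nz.mpr h)))
  have hju' : u' j = 0 := by
    by_contra h
    exact hjb (mem_union_left _ (mem_union_right _ (mem_nz.mpr h)))
  have hS : ∀ k, j ∈ c.N k → k ≠ i → v k = 0 ∧ v' k = 0 := by
    intro k hk hki
    have h1 : k ∉ S := by
      intro hkS
      exact hjb (mem_union_right _ (mem_biUnion.mpr ⟨k, hkS, mem_inter.mpr ⟨hj, hk⟩⟩))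
    have h2 : k ∉ nz v ∪ nz v' := fun h => h1 (mem_erase.mpr ⟨hki, h⟩)
    rw [mem_union, not_or, mem_nz, mem_nz, not_not, not_not] at h2
    exact h2
  have e1 : c.E v j = v i := E_single c hi hj fun k _ hk hki => (hS k hk hki).1
  have e2 : c.E v' j = v' i := E_single c hi hj fun k _ hk hki => (hS k hk hki).2
  have h3 := dist_le_pi_dist (u + c.E v) (u' + c.E v') j
  rw [Pi.add_apply, Pi.add_apply, hju, hju', e1, e2, zero_add, zero_add] at h3
  exact h3

/-- The decoder. -/
theorem exists_D : ∃ D : (ι → ℝ) → (ι → ℝ), LipschitzWith 1 D ∧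
    ∀ u v : ι → ℝ, Sp ρ u → Sp ρ v → (∀ i ∈ A, v i = 0) → D (u + c.E v) = v := by
  classical
  let S : Set (ι → ℝ) := {w | ∃ u v : ι → ℝ, Sp ρ u ∧ Sp ρ v ∧ (∀ i ∈ A, v i = 0) ∧ w = u + c.E v}
  have hch : ∀ w : ι → ℝ, ∃ v : ι → ℝ, w ∈ S → ∃ u, Sp ρ u ∧ Sp ρ v ∧ (∀ i ∈ A, v i = 0) ∧ w = u + c.E v := by
    intro w
    by_cases hw : w ∈ S
    · obtain ⟨u, v, h1, h2, h3, h4⟩ := hw
      exact ⟨v, fun _ => ⟨u, h1, h2, h3, h4⟩⟩
    · exact ⟨0, fun h => absurd h hw⟩
  choose D0 hD0 using hch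
  have hl : LipschitzOnWith 1 D0 S := by
    apply LipschitzOnWith.of_dist_le_mul
    intro w hw w' hw'
    rw [NNReal.coe_one, one_mul]
    obtain ⟨u, h1, h2, h3, h4⟩ := hD0 w hw
    obtain ⟨u', h1', h2', h3', h4'⟩ := hD0 w' hw'
    have := recover c h1 h2 h1' h2' h3 h3'
    rw [← h4, ← h4'] at this
    exact this
  obtain ⟨D, hD1, hD2⟩ := hl.extend_pi
  refine ⟨D, hD1, ?_⟩
  intro u v hu hv hA
  have hw : u + c.E v ∈ S := ⟨u, v, hu, hv, hA, rfl⟩
  rw [← hD2 hw]
  obtain ⟨u', h1', h2', h3', h4'⟩ := hD0 _ hw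
  have := recover c h1' h2' hu hv h3' hA
  rw [← h4', dist_self] at this
  exact dist_le_zero.mp this

end EE

/-- Shears. -/
def shear {V : Type} [AddCommGroup V] (f : V → V) (h1 : ∀ h, f (h + f h) = f h) (h2 : ∀ h, f (h - f h) = f h) :
    V ≃ V where
  toFun h := h + f h
  invFun h := h - f h
  left_inv h := by
    show h + f h - f (h + f h) = h
    rw [h1, add_sub_cancel_right]
  right_inv h := by
    show h - f h + f (h - f h) = h
    rw [h2, sub_add_cancel]

/-- The properties of one elementary map. -/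
structure Lev (A : Finset ι) (ρ : ℕ) (T : (ι → ℝ) ≃ (ι → ℝ)) : Prop where
  lip : LipschitzWith 45 T
  lip' : LipschitzWith 45 T.symm
  p1 : ∀ h, Sp ρ h → ∀ i, i ∉ A → T h i = 0
  p2 : ∀ h, Sp ρ h → (∀ i, i ∉ A → h i = 0) → T h = h
  p3 : ∀ h, Sp (A.card + ρ) (T h - h)

theorem lip_add_of {f : (ι → ℝ) → (ι → ℝ)} {K : NNReal} (hf : LipschitzWith K f) :
    LipschitzWith (1 + K) (fun h => h + f h) := LipschitzWith.id.add hf

theorem lip_sub_of {f : (ι → ℝ) → (ι → ℝ)} {K : NNReal} (hf : LipschitzWith K f) :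
    LipschitzWith (1 + K) (fun h => h - f h) := LipschitzWith.id.sub hf

theorem exists_lev {A : Finset ι} {ρ : ℕ} (c : Code A ρ) : ∃ T, Lev A ρ T := by
  classical
  obtain ⟨θ, hθ1, hθ2, hθ3⟩ := exists_theta (ι := ι) ρ
  obtain ⟨D, hD1, hD2⟩ := exists_D c
  let pA : (ι → ℝ) → (ι → ℝ) := res (· ∈ A)
  let pB : (ι → ℝ) → (ι → ℝ) := res (· ∉ A)
  have hA1 : LipschitzWith 1 pA := res_lip _
  have hB1 : LipschitzWith 1 pB := res_lip _
  have hAi : ∀ h i, i ∈ A → pA h i = h i := fun h i hi => res_of hi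
  have hAi' : ∀ h i, i ∉ A → pA h i = 0 := fun h i hi => res_of_not hi
  have hBi : ∀ h i, i ∉ A → pB h i = h i := fun h i hi => res_of (P := (· ∉ A)) hi
  have hBi' : ∀ h i, i ∈ A → pB h i = 0 := fun h i hi => res_of_not (P := (· ∉ A)) (fun h => h hi)
  let f1 : (ι → ℝ) → (ι → ℝ) := fun h => c.E (pB (θ (pB h)))
  let f2 : (ι → ℝ) → (ι → ℝ) := fun h => - pB (θ (D (pA h)))
  have hf1 : LipschitzWith 8 f1 := by
    have := (E_lip c).comp (hB1.comp (hθ1.comp hB1))
    refine this.weaken ?_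
    norm_num
  have hf2 : LipschitzWith 4 f2 := by
    have := (hB1.comp (hθ1.comp (hD1.comp hA1))).neg
    refine this.weaken ?_
    norm_num
  have hf1off : ∀ h i, i ∉ A → f1 h i = 0 := fun h i hi => E_off c hi
  have hf2on : ∀ h i, i ∈ A → f2 h i = 0 := fun h i hi => by
    show - pB (θ (D (pA h))) i = 0
    rw [hBi' _ i hi, neg_zero]
  have eB1 : ∀ h, pB (h + f1 h) = pB h := fun h => by
    funext i
    by_cases hi : i ∈ A
    · rw [hBi' _ i hi, hBi' _ i hi]
    · rw [hBi _ i hi, hBi _ i hi, Pi.add_apply, hf1off h i hi, add_zero]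
  have eB2 : ∀ h, pB (h - f1 h) = pB h := fun h => by
    funext i
    by_cases hi : i ∈ A
    · rw [hBi' _ i hi, hBi' _ i hi]
    · rw [hBi _ i hi, hBi _ i hi, Pi.sub_apply, hf1off h i hi, sub_zero]
  have eA1 : ∀ h, pA (h + f2 h) = pA h := fun h => by
    funext i
    by_cases hi : i ∈ A
    · rw [hAi _ i hi, hAi _ i hi, Pi.add_apply, hf2on h i hi, add_zero]
    · rw [hAi' _ i hi, hAi' _ i hi]
  have eA2 : ∀ h, pA (h - f2 h) = pA h := fun h => by
    funext i
    by_cases hi : i ∈ A
    · rw [hAi _ i hi, hAi _ i hi, Pi.sub_apply, hf2on h i hi, sub_zero]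
    · rw [hAi' _ i hi, hAi' _ i hi]
  let S1 : (ι → ℝ) ≃ (ι → ℝ) := shear f1 (fun h => by
    show c.E (pB (θ (pB (h + f1 h)))) = _
    rw [eB1]) (fun h => by
    show c.E (pB (θ (pB (h - f1 h)))) = _
    rw [eB2])
  let S2 : (ι → ℝ) ≃ (ι → ℝ) := shear f2 (fun h => by
    show - pB (θ (D (pA (h + f2 h)))) = _
    rw [eA1]) (fun h => by
    show - pB (θ (D (pA (h - f2 h)))) = _
    rw [eA2])
  have hT : ∀ h, (S1.trans S2) h = (h + f1 h) + f2 (h + f1 h) := fun h => rfl
  -- value on sparse vectors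
  have hsp : ∀ h, Sp ρ h → (S1.trans S2) h = pA h + c.E (pB h) := by
    intro h hh
    have h1 : Sp ρ (pB h) := res_sp hh
    have h2 : pB (pB h) = pB h := by
      funext i
      by_cases hi : i ∈ A
      · rw [hBi' _ i hi, hBi' _ i hi]
      · rw [hBi _ i hi]
    have h3 : f1 h = c.E (pB h) := by
      show c.E (pB (θ (pB h))) = _
      rw [hθ3 _ h1, h2]
    have h4 : pA (h + f1 h) = pA h + c.E (pB h) := by
      rw [h3]
      funext i
      by_cases hi : i ∈ A
      · rw [Pi.add_apply, hAi _ i hi, hAi _ i hi, Pi.add_apply]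
      · rw [Pi.add_apply, hAi' _ i hi, hAi' _ i hi, E_off c hi, add_zero]
    have h5 : f2 (h + f1 h) = - pB h := by
      show - pB (θ (D (pA (h + f1 h)))) = _
      rw [h4, hD2 _ _ (res_sp hh) h1 (fun i hi => hBi' _ i hi), hθ3 _ h1, h2]
    rw [hT, h5, h3]
    funext i
    by_cases hi : i ∈ A
    · rw [Pi.add_apply, Pi.add_apply, Pi.neg_apply, Pi.add_apply, hBi' _ i hi, hAi _ i hi]; ring
    · rw [Pi.add_apply, Pi.add_apply, Pi.neg_apply, Pi.add_apply, hBi _ i hi, hAi' _ i hi]; ring
  refine ⟨S1.trans S2, ?_, ?_, ?_, ?_, ?_⟩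
  · have := (lip_add_of hf2).comp (lip_add_of hf1)
    refine this.weaken ?_
    norm_num
  · have := (lip_sub_of hf1).comp (lip_sub_of hf2)
    refine this.weaken ?_
    norm_num
  · intro h hh i hi
    rw [hsp h hh, Pi.add_apply, hAi' _ i hi, E_off c hi, add_zero]
  · intro h hh hoff
    have h1 : pB h = 0 := by
      funext i
      by_cases hi : i ∈ A
      · exact hBi' _ i hi
      · rw [hBi _ i hi, hoff i hi]; rfl
    have h2 : pA h = h := by
      funext i
      by_cases hi : i ∈ A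
      · exact hAi _ i hi
      · rw [hAi' _ i hi, hoff i hi]
    rw [hsp h hh, h1, h2, E_zero, add_zero]
  · intro h
    refine sp_of_subset (S := A ∪ nz (θ (D (pA (h + f1 h))))) ?_ ?_
    · intro i hi
      by_contra hc
      rw [mem_union, not_or, mem_nz, not_not] at hc
      apply hi
      rw [Pi.sub_apply, hT, Pi.add_apply, Pi.add_apply, hf1off _ _ hc.1]
      show h i + 0 + - pB (θ (D (pA (h + f1 h)))) i - h i = 0
      rw [hBi _ i hc.1, hc.2]; ring
    · refine (card_union_le _ _).trans ?_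
      exact add_le_add le_rfl (hθ2 _)

end Pool.Agent.Helper495.KO
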