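import Pool.Agent.Helper495.KO.Final

set_option autoImplicit false

namespace Pool.Agent.Helper495.KO.Tree

open Filter Topology Set Pool.Agent.Helper495.KO

/-- Nodes of the binary tree. -/
abbrev Nd : Type := Σ k : ℕ, (Fin k → Bool)

/-- Restriction of a branch. -/
def res (x : ℕ → Bool) (k : ℕ) : Nd := ⟨k, fun i => x i⟩

theorem res_eq {x y : ℕ → Bool} {k l : ℕ} (h : res x k = res y l) : k = l ∧ ∀ i < k, x i = y i := by
  have hk : k = l := congrArg Sigma.fst h
  subst hk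
  refine ⟨rfl, fun i hi => ?_⟩
  have h2 := eq_of_heq (Sigma.mk.inj h).2
  exact congrFun h2 ⟨i, hi⟩

theorem res_congr {x y : ℕ → Bool} {k : ℕ} (h : ∀ i < k, x i = y i) : res x k = res y k := by
  unfold res
  congr 1
  funext i
  exact h i i.2

/-- The index set of isolated points: a finite block over each node. -/
def ND : Type := Σ s : Nd, Fin (bs s.1)

instance : Countable ND := inferInstanceAs (Countable (Σ s : Nd, Fin (bs s.1)))

/-- The point number `i` of the block over the `k`-th node of the branch `x`. -/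
def pnt (x : ℕ → Bool) (k : ℕ) (i : Fin (bs k)) : ND := ⟨res x k, i⟩

theorem pnt_res {x : ℕ → Bool} {k : ℕ} {i : Fin (bs k)} : (pnt x k i).1 = res x k := rfl

/-- Each block contains finitely many points. -/
def blk (s : Nd) : Set ND := range fun i : Fin (bs s.1) => (⟨s, i⟩ : ND)

/-- The filter with many convergent sequences. -/
def FC : Filter ND where
  sets := {U | ∀ x m, ∃ k0, ∀ k, k0 ≤ k → ∀ i : Fin (bs k), R k m ≤ i.val → pnt x k i ∈ U}
  univ_sets := fun x m => ⟨0, fun k _ i _ => mem_univ _⟩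
  sets_of_superset := fun hU hUV x m => by
    obtain ⟨k0, hk0⟩ := hU x m
    exact ⟨k0, fun k hk i hi => hUV (hk0 k hk i hi)⟩
  inter_sets := fun hU hV x m => by
    obtain ⟨k1, hk1⟩ := hU x m
    obtain ⟨k2, hk2⟩ := hV x m
    exact ⟨max k1 k2, fun k hk i hi => ⟨hk1 k (by omega) i hi, hk2 k (by omega) i hi⟩⟩

theorem mem_FC {U : Set ND} : U ∈ FC ↔ ∀ x m, ∃ k0, ∀ k, k0 ≤ k → ∀ i : Fin (bs k), R k m ≤ i.val → pnt x k i ∈ U :=
  Iff.rfl

/-- The filter without convergent sequences. -/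
def FN : Filter ND where
  sets := {U | ∀ x m, ∃ k0, ∀ k, k0 ≤ k → ({i : Fin (bs k) | pnt x k i ∉ U}).ncard ≤ R k m}
  univ_sets := fun x m => ⟨0, fun k _ => by
    have h : {i : Fin (bs k) | pnt x k i ∉ (univ : Set ND)} = ∅ := by
      rw [eq_empty_iff_forall_notMem]; intro i hi; exact hi (mem_univ _)
    rw [h, ncard_empty]; exact Nat.zero_le _⟩
  sets_of_superset := fun {U V} hU hUV x m => by
    obtain ⟨k0, hk0⟩ := hU x m
    refine ⟨k0, fun k hk => (ncard_le_ncard ?_ (toFinite _)).trans (hk0 k hk)⟩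
    intro i hi hi'
    exact hi (hUV hi')
  inter_sets := fun {U V} hU hV x m => by
    obtain ⟨k1, hk1⟩ := hU x (m + 1)
    obtain ⟨k2, hk2⟩ := hV x (m + 1)
    refine ⟨max (max k1 k2) (m + 1), fun k hk => ?_⟩
    have h1 := hk1 k (by omega)
    have h2 := hk2 k (by omega)
    have h3 := R_two (k := k) (m := m) (by omega)
    have h4 : {i : Fin (bs k) | pnt x k i ∉ U ∩ V} ⊆
        {i : Fin (bs k) | pnt x k i ∉ U} ∪ {i : Fin (bs k) | pnt x k i ∉ V} := by
      intro i hi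
      by_contra hc
      have hc1 : ¬ (pnt x k i ∉ U ∨ pnt x k i ∉ V) := hc
      push Not at hc1
      exact hi hc1
    have h5 := ncard_le_ncard h4 (toFinite _)
    have h6 := ncard_union_le {i : Fin (bs k) | pnt x k i ∉ U} {i : Fin (bs k) | pnt x k i ∉ V}
    omega

theorem mem_FN {U : Set ND} : U ∈ FN ↔ ∀ x m, ∃ k0, ∀ k, k0 ≤ k →
    ({i : Fin (bs k) | pnt x k i ∉ U}).ncard ≤ R k m := Iff.rfl

/-- A set meeting only finitely many levels of every branch. -/
theorem compl_mem_FC {D : Set ND} (h : ∀ x, ∃ k0, ∀ k, k0 ≤ k → ∀ i : Fin (bs k), pnt x k i ∉ D) : Dᶜ ∈ FC := by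
  intro x m
  obtain ⟨k0, hk0⟩ := h x
  exact ⟨k0, fun k hk i _ => hk0 k hk i⟩

theorem cof_aux {U : Set ND} (hU : Uᶜ.Finite) : ∃ k0, ∀ x k, k0 ≤ k → ∀ i : Fin (bs k), pnt x k i ∈ U := by
  obtain ⟨b, hb⟩ := (hU.image (fun x : ND => x.1.1)).bddAbove
  refine ⟨b + 1, fun x k hk i => ?_⟩
  by_contra hc
  have : (pnt x k i).1.1 ≤ b := hb (mem_image_of_mem (fun x : ND => x.1.1) hc)
  have h2 : k ≤ b := this
  omega

theorem FC_le : FC ≤ cofinite := by
  intro U hU x m
  rw [mem_cofinite] at hU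
  obtain ⟨k0, hk0⟩ := cof_aux hU
  exact ⟨k0, fun k hk i _ => hk0 x k hk i⟩

theorem FN_le : FN ≤ cofinite := by
  intro U hU x m
  rw [mem_cofinite] at hU
  obtain ⟨k0, hk0⟩ := cof_aux hU
  refine ⟨k0, fun k hk => ?_⟩
  have : {i : Fin (bs k) | pnt x k i ∉ U} = ∅ := by
    rw [eq_empty_iff_forall_notMem]
    intro i hi
    exact hi (hk0 x k hk i)
  rw [this, ncard_empty]; exact Nat.zero_le _

/-- A compact set has only finitely many points in a set whose complement is a neighbourhood. -/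
theorem finite_of_compact' {N : Type} {F : Filter N} {C : Set (FSp F)} (hC : IsCompact C) {D : Set N} (hD : Dᶜ ∈ F)
    (hDC : ∀ x ∈ D, pt F x ∈ C) : D.Finite := by
  let U : Option D → Set (FSp F) := fun o => match o with
    | none => {z | ∀ x ∈ D, z ≠ pt F x}
    | some x => {pt F x.1}
  have hU : ∀ o, IsOpen (U o) := by
    rintro (_ | x)
    · rw [isOpen_def]
      intro _
      refine mem_of_superset hD fun y hy x hx h => hy ?_
      rw [pt_inj h]; exact hx
    · exact isOpen_of_notMem fun h => pt_ne x.1 h.symm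
  have hcov : C ⊆ ⋃ o, U o := by
    intro z hz
    by_cases h : ∃ x ∈ D, z = pt F x
    · obtain ⟨x, hx, rfl⟩ := h
      exact mem_iUnion.mpr ⟨some ⟨x, hx⟩, rfl⟩
    · push Not at h
      exact mem_iUnion.mpr ⟨none, h⟩
  obtain ⟨t, ht⟩ := hC.elim_finite_subcover U hU hcov
  have h1 : (some '' (univ : Set D) : Set (Option D)) ⊆ (t : Set (Option D)) := by
    rintro _ ⟨x, _, rfl⟩
    obtain ⟨o, ho, hx⟩ := mem_iUnion₂.mp (ht (hDC x.1 x.2))
    rcases o with _ | y
    · exact absurd rfl (hx x.1 x.2)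
    · have : x = y := Subtype.ext (pt_inj hx)
      rw [this]; exact ho
  have h2 : (univ : Set D).Finite := (t.finite_toSet.subset h1).of_finite_image (Option.some_injective _).injOn
  exact finite_coe_iff.mp (finite_univ_iff.mp h2)

/-- Compact sets of the second space are finite. -/
theorem compact_finite (C : Set (FSp FN)) (hC : IsCompact C) : C.Finite := by
  have h0 : {x : ND | pt FN x ∈ C}.Finite := by
    by_contra hinf
    let S : Set ND := {x : ND | pt FN x ∈ C}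
    have hch : ∀ s : Nd, ∃ y : Fin (bs s.1), (∃ i : Fin (bs s.1), (⟨s, i⟩ : ND) ∈ S) → (⟨s, y⟩ : ND) ∈ S := by
      intro s
      by_cases h : ∃ i : Fin (bs s.1), (⟨s, i⟩ : ND) ∈ S
      · obtain ⟨i, hi⟩ := h
        exact ⟨i, fun _ => hi⟩
      · exact ⟨⟨0, Nat.two_pow_pos _⟩, fun h' => absurd h' h⟩
    choose y hy using hch
    let P : Set Nd := {s | ∃ i : Fin (bs s.1), (⟨s, i⟩ : ND) ∈ S}
    let D : Set ND := (fun s => (⟨s, y s⟩ : ND)) '' P
    have hD : Dᶜ ∈ FN := by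
      intro x m
      refine ⟨m, fun k hk => ?_⟩
      obtain ⟨yk, hyk⟩ : ∃ yk : Fin (bs k), yk = y (res x k) := ⟨y (res x k), rfl⟩
      have h1 : {i : Fin (bs k) | pnt x k i ∉ Dᶜ} ⊆ ({yk} : Set (Fin (bs k))) := by
        intro i hi
        rw [mem_singleton_iff, hyk]
        have hi' : pnt x k i ∈ D := by
          by_contra hc
          exact hi hc
        obtain ⟨s, _, hs⟩ := hi'
        have hsx : s = res x k := congrArg Sigma.fst hs
        subst hsx
        have := eq_of_heq (Sigma.mk.inj hs).2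
        exact this.symm
      refine (ncard_le_ncard h1 (toFinite _)).trans ?_
      rw [ncard_singleton, R_of hk]
      exact rr_pos k m
    have hDC : ∀ x ∈ D, pt FN x ∈ C := by
      rintro _ ⟨k, hk, rfl⟩
      exact hy k hk
    have h1 := finite_of_compact' hC hD hDC
    have h2 : P.Finite := by
      refine h1.of_finite_image (f := fun s => (⟨s, y s⟩ : ND)) ?_
      intro k _ l _ hkl
      exact congrArg Sigma.fst hkl
    apply hinf
    refine (h2.biUnion (t := fun s => blk s) fun s _ => finite_range _).subset ?_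
    rintro ⟨s, i⟩ hx
    exact mem_biUnion (show s ∈ P from ⟨i, hx⟩) ⟨i, rfl⟩
  refine ((h0.image (pt FN)).union (finite_singleton (pinf FN))).subset ?_
  intro z hz
  rcases fcases z with rfl | ⟨x, rfl⟩
  · exact Or.inr rfl
  · exact Or.inl ⟨x, hz, rfl⟩

/-- Transport of functions along a family of block maps. -/
noncomputable def trT (S : (k : ℕ) → (Fin (bs k) → ℝ) → (Fin (bs k) → ℝ)) (F G : Filter ND)
    (g : FSp F → ℝ) : FSp G → ℝ := fun z => match z with
  | none => g (pinf F)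
  | some x => g (pinf F) + S x.1.1 (fun j => g (pt F ⟨x.1, j⟩) - g (pinf F)) x.2

theorem trT_inf (S : (k : ℕ) → (Fin (bs k) → ℝ) → (Fin (bs k) → ℝ)) (F G : Filter ND) (g : FSp F → ℝ) :
    trT S F G g (pinf G) = g (pinf F) := rfl

theorem trT_pt (S : (k : ℕ) → (Fin (bs k) → ℝ) → (Fin (bs k) → ℝ)) (F G : Filter ND) (g : FSp F → ℝ)
    (s : Nd) (i : Fin (bs s.1)) :
    trT S F G g (pt G ⟨s, i⟩) = g (pinf F) + S s.1 (fun j => g (pt F ⟨s, j⟩) - g (pinf F)) i := rfl

theorem trT_pnt (S : (k : ℕ) → (Fin (bs k) → ℝ) → (Fin (bs k) → ℝ)) (F G : Filter ND) (g : FSp F → ℝ)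
    (x : ℕ → Bool) (k : ℕ) (i : Fin (bs k)) :
    trT S F G g (pt G (pnt x k i)) = g (pinf F) + S k (fun j => g (pt F (pnt x k j)) - g (pinf F)) i := rfl

theorem trT_trT {S S' : (k : ℕ) → (Fin (bs k) → ℝ) → (Fin (bs k) → ℝ)} (h : ∀ k x, S' k (S k x) = x)
    (F G : Filter ND) (g : FSp F → ℝ) : trT S' G F (trT S F G g) = g := by
  funext z
  rcases fcases z with rfl | ⟨⟨s, i⟩, rfl⟩
  · rfl
  · rw [trT_pt, trT_inf]
    have h1 : (fun j => trT S F G g (pt G ⟨s, j⟩) - g (pinf F)) =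
        S s.1 (fun j => g (pt F ⟨s, j⟩) - g (pinf F)) := by
      funext j
      rw [trT_pt, add_sub_cancel_left]
    rw [h1, h]
    ring

theorem trT_uc {S : (k : ℕ) → (Fin (bs k) → ℝ) → (Fin (bs k) → ℝ)} (hS : ∀ k, ∃ C, LipschitzWith C (S k))
    (F G : Filter ND) : UniformContinuous (trT S F G) := by
  rw [uniformContinuous_pi]
  intro z
  rcases fcases z with rfl | ⟨⟨s, i⟩, rfl⟩
  · exact Pi.uniformContinuous_proj (fun _ : FSp F => ℝ) (pinf F)
  · obtain ⟨C, hC⟩ := hS s.1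
    have h1 : UniformContinuous (fun g : FSp F → ℝ => fun j : Fin (bs s.1) => g (pt F ⟨s, j⟩) - g (pinf F)) := by
      rw [uniformContinuous_pi]
      intro j
      exact (Pi.uniformContinuous_proj (fun _ : FSp F => ℝ) (pt F ⟨s, j⟩)).sub
        (Pi.uniformContinuous_proj (fun _ : FSp F => ℝ) (pinf F))
    have h2 := (Pi.uniformContinuous_proj (fun _ : Fin (bs s.1) => ℝ) i).comp (hC.uniformContinuous.comp h1)
    exact (Pi.uniformContinuous_proj (fun _ : FSp F => ℝ) (pinf F)).add h2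

theorem cont_NC {g : FSp FN → ℝ} (hg : Continuous g) : Continuous (trT (fun k => TT k) FN FC g) := by
  rw [continuous_iff_mem] at hg ⊢
  intro ε hε x m
  set δ : ℝ := ε / (2 * 45 ^ (m + 1)) with hδ
  have hpow : (0 : ℝ) < 45 ^ (m + 1) := by positivity
  have hδ0 : 0 < δ := by positivity
  have hδ1 : 45 ^ (m + 1) * δ < ε := by
    rw [hδ]
    have : (45 : ℝ) ^ (m + 1) * (ε / (2 * 45 ^ (m + 1))) = ε / 2 := by field_simp
    rw [this]; linarith
  obtain ⟨k0, hk0⟩ := mem_FN.mp (hg δ hδ0) x (m + 1)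
  refine ⟨max k0 (m + 1), fun k hk i hi => ?_⟩
  show |trT (fun k => TT k) FN FC g (pt FC (pnt x k i)) - g (pinf FN)| < ε
  rw [trT_pnt, add_sub_cancel_left]
  have hi1' : rr k m ≤ i.val := by
    rwa [R_of (by omega)] at hi
  refine lt_of_le_of_lt ((TT_spec k).2.2.1 m (by omega) _ δ hδ0.le ?_ i hi1') hδ1
  have h1 := hk0 k (by omega)
  rw [R_of (by omega)] at h1
  refine le_trans ?_ h1
  rw [← ncard_coe_finset]
  refine ncard_le_ncard ?_ (toFinite _)
  intro j hj
  rw [Finset.mem_coe, Finset.mem_filter] at hj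
  intro hj'
  have h2 : |g (pt FN (pnt x k j)) - g (pinf FN)| < δ := hj'
  linarith [hj.2]

theorem cont_CN {f : FSp FC → ℝ} (hf : Continuous f) : Continuous (trT (fun k => (TT k).symm) FC FN f) := by
  rw [continuous_iff_mem] at hf ⊢
  intro ε hε x m
  set δ : ℝ := ε / (2 * 45 ^ (m + 1)) with hδ
  have hpow : (0 : ℝ) < 45 ^ (m + 1) := by positivity
  have hδ0 : 0 < δ := by positivity
  have hδ1 : 45 ^ (m + 1) * δ < ε := by
    rw [hδ]
    have : (45 : ℝ) ^ (m + 1) * (ε / (2 * 45 ^ (m + 1))) = ε / 2 := by field_simp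
    rw [this]; linarith
  obtain ⟨k0, hk0⟩ := mem_FC.mp (hf δ hδ0) x (m + 1)
  refine ⟨max k0 (m + 1), fun k hk => ?_⟩
  rw [R_of (by omega)]
  have h2 : ∀ i : Fin (bs k), rr k (m + 1) ≤ i.val → |f (pt FC (pnt x k i)) - f (pinf FC)| ≤ δ := by
    intro i hi
    have := hk0 k (by omega) i (by rw [R_of (by omega)]; exact hi)
    exact le_of_lt this
  have h3 := (TT_spec k).2.2.2 m (by omega) (fun j => f (pt FC (pnt x k j)) - f (pinf FC)) δ hδ0.le h2
  refine le_trans ?_ h3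
  rw [← ncard_coe_finset]
  refine ncard_le_ncard ?_ (toFinite _)
  intro j hj
  rw [Finset.mem_coe, Finset.mem_filter]
  refine ⟨Finset.mem_univ _, ?_⟩
  by_contra hc
  apply hj
  show |trT (fun k => (TT k).symm) FC FN f (pt FN (pnt x k j)) - f (pinf FC)| < ε
  rw [trT_pnt, add_sub_cancel_left]
  exact lt_of_le_of_lt (not_lt.mp hc) hδ1

/-- The homeomorphism of the full powers. -/
noncomputable def HE : (FSp FN → ℝ) ≃ₜ (FSp FC → ℝ) where
  toFun g := trT (fun k => TT k) FN FC g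
  invFun f := trT (fun k => (TT k).symm) FC FN f
  left_inv g := trT_trT (fun k x => (TT k).symm_apply_apply x) FN FC g
  right_inv f := trT_trT (fun k x => (TT k).apply_symm_apply x) FC FN f
  continuous_toFun := (trT_uc (fun k => (TT_spec k).1) FN FC).continuous
  continuous_invFun := (trT_uc (fun k => (TT_spec k).2.1) FC FN).continuous

theorem HE_image : HE '' {f : FSp FN → ℝ | Continuous f} = {g : FSp FC → ℝ | Continuous g} := by
  ext g
  constructor
  · rintro ⟨f, hf, rfl⟩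
    exact cont_NC hf
  · intro hg
    exact ⟨HE.symm g, cont_CN hg, HE.apply_symm_apply g⟩

/-- The network of singletons. -/
theorem net_N : ∃ 𝒩 : Set (Set (FSp FN)), 𝒩.Countable ∧
    ∀ K U : Set (FSp FN), IsCompact K → IsOpen U → K ⊆ U →
      ∃ F : Set (Set (FSp FN)), F.Finite ∧ F ⊆ 𝒩 ∧ K ⊆ ⋃₀ F ∧ ⋃₀ F ⊆ U := by
  haveI : Countable (FSp FN) := inferInstanceAs (Countable (Option ND))
  refine ⟨range fun x : FSp FN => {x}, countable_range _, ?_⟩
  intro K U hK hU hKU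
  have hf := compact_finite K hK
  refine ⟨(fun x => {x}) '' K, hf.image _, image_subset_range _ _, ?_, ?_⟩
  · intro x hx
    exact ⟨{x}, ⟨x, hx, rfl⟩, rfl⟩
  · rintro x ⟨_, ⟨y, hy, rfl⟩, hx⟩
    rw [mem_singleton_iff.mp hx]
    exact hKU hy

/-- The last point of a block. -/
def lst (k : ℕ) : Fin (bs k) := ⟨bs k - 1, Nat.sub_lt (Nat.two_pow_pos _) one_pos⟩

/-- The point over a node. -/
def nd (s : Nd) : FSp FC := pt FC ⟨s, lst s.1⟩

theorem nd_inj {s t : Nd} (h : nd s = nd t) : s = t := congrArg Sigma.fst (pt_inj h)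

theorem R_le_lst (k m : ℕ) : R k m ≤ (lst k).val := by
  have h1 : R k m ≤ R k 0 := R_anti' k (Nat.zero_le m)
  rw [R_of (Nat.zero_le k)] at h1
  have h2 := rr_lt_bs k 0
  show R k m ≤ bs k - 1
  omega

theorem tendsto_nd (x : ℕ → Bool) : Tendsto (fun k => nd (res x k)) atTop (𝓝 (pinf FC)) := by
  intro U hU
  obtain ⟨V, hVU, hV, hp⟩ := mem_nhds_iff.mp hU
  obtain ⟨k0, hk0⟩ := mem_FC.mp (isOpen_def.mp hV hp) x 0
  rw [Filter.mem_map, mem_atTop_sets]
  refine ⟨k0, fun k hk => hVU ?_⟩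
  exact hk0 k hk (lst k) (R_le_lst k 0)

theorem compact_branch (x : ℕ → Bool) : IsCompact (insert (pinf FC) (range fun k => nd (res x k))) :=
  (tendsto_nd x).isCompact_insert_range

theorem not_cnt : ¬ Countable (ℕ → Bool) := by
  intro h
  obtain ⟨f, hf⟩ := exists_injective_nat (ℕ → Bool)
  exact Function.cantor_injective (fun s : Set ℕ => f (fun n => by classical exact decide (n ∈ s))) (by
    intro s t hst
    have := hf hst
    ext n
    have h2 := congrFun this n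
    simpa using h2)

theorem not_net_C : ¬ ∃ 𝒩 : Set (Set (FSp FC)), 𝒩.Countable ∧
    ∀ K U : Set (FSp FC), IsCompact K → IsOpen U → K ⊆ U →
      ∃ F : Set (Set (FSp FC)), F.Finite ∧ F ⊆ 𝒩 ∧ K ⊆ ⋃₀ F ∧ ⋃₀ F ⊆ U := by
  rintro ⟨𝒩, hc, hN⟩
  let C : Set (FSp FC) → Set (ℕ → Bool) := fun N => {x | ∃ᶠ k in atTop, nd (res x k) ∈ N}
  -- a branch which is not isolated in any of the sets
  obtain ⟨x, hx⟩ : ∃ x : ℕ → Bool, ∀ N ∈ 𝒩, x ∈ C N → ∀ l : ℕ, ∃ y ∈ C N, y ≠ x ∧ ∀ i < l, y i = x i := by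
    by_contra hcon
    push Not at hcon
    have hcount : (⋃ N ∈ 𝒩, {x : ℕ → Bool | x ∈ C N ∧ ∃ l : ℕ, ∀ y ∈ C N, y ≠ x → ∃ i < l, y i ≠ x i}).Countable := by
      refine hc.biUnion fun N _ => ?_
      have h1 : {x : ℕ → Bool | x ∈ C N ∧ ∃ l : ℕ, ∀ y ∈ C N, y ≠ x → ∃ i < l, y i ≠ x i} ⊆
          ⋃ l : ℕ, {x : ℕ → Bool | x ∈ C N ∧ ∀ y ∈ C N, y ≠ x → ∃ i < l, y i ≠ x i} := by
        rintro x ⟨hx, l, hl⟩
        exact mem_iUnion.mpr ⟨l, hx, hl⟩
      refine (countable_iUnion fun l => ?_).mono h1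
      have h2 : InjOn (fun x : ℕ → Bool => res x l)
          {x : ℕ → Bool | x ∈ C N ∧ ∀ y ∈ C N, y ≠ x → ∃ i < l, y i ≠ x i} := by
        intro x hx y hy hxy
        by_contra hne
        obtain ⟨i, hi, hi'⟩ := hx.2 y hy.1 (Ne.symm hne)
        exact hi' ((res_eq hxy).2 i hi).symm
      exact (mapsTo_univ _ _).countable_of_injOn h2 countable_univ
    have huniv : (univ : Set (ℕ → Bool)) ⊆ ⋃ N ∈ 𝒩, {x : ℕ → Bool | x ∈ C N ∧ ∃ l : ℕ, ∀ y ∈ C N, y ≠ x → ∃ i < l, y i ≠ x i} := by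
      intro x _
      obtain ⟨N, hN1, hN2, l, hl⟩ := hcon x
      exact mem_biUnion hN1 ⟨hN2, l, hl⟩
    have h3 : (univ : Set (ℕ → Bool)).Countable := hcount.mono huniv
    have h4 : Countable (ℕ → Bool) := countable_univ_iff.mp h3
    exact not_cnt h4
  -- a set of points off the branch
  haveI : Countable 𝒩 := hc
  obtain ⟨e, he⟩ := exists_injective_nat 𝒩
  have hsel : ∀ N : 𝒩, x ∈ C N.1 → ∃ (y : ℕ → Bool) (k j : ℕ), nd (res y k) ∈ N.1 ∧ e N ≤ j ∧ j < k ∧
      (∀ i < j, y i = x i) ∧ y j ≠ x j := by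
    intro N hxN
    obtain ⟨y, hy, hyx, hag⟩ := hx N.1 N.2 hxN (e N)
    have hex : ∃ j, y j ≠ x j := by
      by_contra hcon
      push Not at hcon
      exact hyx (funext hcon)
    classical
    obtain ⟨k, hk1, hk2⟩ := (frequently_atTop.mp hy) (Nat.find hex + 1)
    refine ⟨y, k, Nat.find hex, hk2, ?_, by omega, fun i hi => ?_, Nat.find_spec hex⟩
    · by_contra hlt
      exact Nat.find_spec hex (hag _ (by omega))
    · by_contra hne
      exact Nat.find_min hex hi hne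
  choose! yy kk jj h1 h2 h3 h4 h5 using hsel
  let D : Set ND := {z | ∃ N : 𝒩, x ∈ C N.1 ∧ z = ⟨res (yy N) (kk N), lst _⟩}
  have hD : Dᶜ ∈ FC := by
    apply compl_mem_FC
    intro z
    -- the sets whose point lies on the branch `z` have bounded index
    have hfin : {N : 𝒩 | x ∈ C N.1 ∧ ∃ k, res (yy N) (kk N) = res z k}.Finite := by
      by_cases hzx : z = x
      · subst hzx
        convert finite_empty
        rw [eq_empty_iff_forall_notMem]
        rintro N ⟨hN, k, hk⟩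
        have := (res_eq hk).2 (jj N) (h3 N hN)
        exact h5 N hN this
      · have hex : ∃ j, z j ≠ x j := by
          by_contra hcon
          push Not at hcon
          exact hzx (funext hcon)
        obtain ⟨j, hj⟩ := hex
        refine ((finite_le_nat j).preimage (he.injOn)).subset ?_
        rintro N ⟨hN, k, hk⟩
        show e N ≤ j
        by_contra hlt
        have h6 := h2 N hN
        have h7 := h3 N hN
        have h8 := (res_eq hk).2 j (by omega)
        have h9 := h4 N hN j (by omega)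
        exact hj (h8.symm.trans h9)
    obtain ⟨b, hb⟩ := (hfin.image kk).bddAbove
    refine ⟨b + 1, fun k hk i hi => ?_⟩
    obtain ⟨N, hN, hNi⟩ := hi
    have h6 : res z k = res (yy N) (kk N) := congrArg Sigma.fst hNi
    have h7 : kk N ≤ b := hb (mem_image_of_mem kk ⟨hN, k, h6.symm⟩)
    have h8 := (res_eq h6).1
    omega
  let U : Set (FSp FC) := {z | ∀ w ∈ D, z ≠ pt FC w}
  have hU : IsOpen U := by
    rw [isOpen_def]
    intro _
    refine mem_of_superset hD fun y hy w hw h => hy ?_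
    rw [pt_inj h]; exact hw
  have hxU : insert (pinf FC) (range fun k => nd (res x k)) ⊆ U := by
    intro z hz w hw hzw
    obtain ⟨N, hN, rfl⟩ := hw
    rcases hz with rfl | ⟨k, rfl⟩
    · exact pt_ne _ hzw.symm
    · have h6 : res x k = res (yy N) (kk N) := congrArg Sigma.fst (pt_inj hzw)
      have := (res_eq h6).2 (jj N) (by have := (res_eq h6).1; have := h3 N hN; omega)
      exact h5 N hN this.symm
  obtain ⟨G, hG1, hG2, hG3, hG4⟩ := hN _ U (compact_branch x) hU hxU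
  -- one of the sets contains infinitely many points of the branch
  have hfr : ∃ N ∈ G, ∃ᶠ k in atTop, nd (res x k) ∈ N := by
    by_contra hcon
    push Not at hcon
    have h6 : ∀ N ∈ G, ∀ᶠ k in atTop, nd (res x k) ∉ N := fun N hN => hcon N hN
    have h7 : ∀ᶠ k in atTop, ∀ N ∈ G, nd (res x k) ∉ N := (hG1.eventually_all).mpr h6
    obtain ⟨k, hk⟩ := h7.exists
    obtain ⟨N, hN1, hN2⟩ := hG3 (Or.inr ⟨k, rfl⟩ : nd (res x k) ∈ insert (pinf FC) (range fun k => nd (res x k)))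
    exact hk N hN1 hN2
  obtain ⟨N, hNG, hNf⟩ := hfr
  have h6 := h1 ⟨N, hG2 hNG⟩ hNf
  have h7 : nd (res (yy ⟨N, hG2 hNG⟩) (kk ⟨N, hG2 hNG⟩)) ∈ U := hG4 ⟨N, hNG, h6⟩
  exact h7 _ ⟨⟨N, hG2 hNG⟩, hNf, rfl⟩ rfl

theorem main :
    ¬ (∀ (X Y : Type) [TopologicalSpace X] [TopologicalSpace Y] [T35Space X] [T35Space Y],
      (∃ φ : (X → ℝ) ≃ₜ (Y → ℝ),
          φ '' {f : X → ℝ | Continuous f} = {g : Y → ℝ | Continuous g}) →
      (∃ 𝒩 : Set (Set X), 𝒩.Countable ∧
          ∀ K U : Set X, IsCompact K → IsOpen U → K ⊆ U →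
            ∃ F : Set (Set X), F.Finite ∧ F ⊆ 𝒩 ∧ K ⊆ ⋃₀ F ∧ ⋃₀ F ⊆ U) →
      (∃ 𝒩 : Set (Set Y), 𝒩.Countable ∧
          ∀ K U : Set Y, IsCompact K → IsOpen U → K ⊆ U →
            ∃ F : Set (Set Y), F.Finite ∧ F ⊆ 𝒩 ∧ K ⊆ ⋃₀ F ∧ ⋃₀ F ⊆ U)) := by
  intro h
  haveI := t35 FN_le
  haveI := t35 FC_le
  exact not_net_C (h (FSp FN) (FSp FC) ⟨HE, HE_image⟩ net_N)

end Pool.Agent.Helper495.KO.Tree
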